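import Pool.Agent.U390.CI.Dist

set_option autoImplicit false

/-!
# The linear arboricity conjecture for cubelike graphs

`H931R3.LA.la G` is the linear arboricity (the same expression as in the frozen statement S07085).
-/

namespace Pool.Agent.Results.MP_0a041d_co.CubelikeGraphs

open Module H931R3.LA

/-- The image of the unit vector number `i` under the homomorphism `φ`. -/
def unit {Γ : Type} [Group Γ] {n : ℕ} (φ : Multiplicative (Fin n → ZMod 2) →* Γ) (i : Fin n) : Γ :=
  φ (Multiplicative.ofAdd (Pi.single i 1))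

/-- `f` is a locally injective homomorphism from `G` to `X`. -/
def LocInj {W V : Type} (G : SimpleGraph W) (X : SimpleGraph V) (f : W → V) : Prop :=
  (∀ a b, G.Adj a b → X.Adj (f a) (f b)) ∧
    ∀ a b c, G.Adj a b → G.Adj a c → f b = f c → b = c

/-- The linear arboricity conjecture holds for the finite `r`-regular graph `X`, and if `r` is even
also for all finite `r`-regular graphs with a locally injective homomorphism to `X` (covers). -/
def Holds {V : Type} (X : SimpleGraph V) (r : ℕ) : Prop :=
  (∀ v, (X.neighborSet v).ncard = r) ∧ la X = (r + 2) / 2 ∧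
    (Even r → ∀ (W : Type) [Finite W] [Nonempty W] (G : SimpleGraph W) (f : W → V),
      LocInj G X f → (∀ a, (G.neighborSet a).ncard = r) → la G = (r + 2) / 2)

theorem holds_of_ld {V : Type} [Finite V] [Nonempty V] {X : SimpleGraph V} {r N : ℕ} (hr : 0 < r)
    (hreg : ∀ v, (X.neighborSet v).ncard = r) (hN : r = 2 * N)
    (h : Pool.Agent.TH486.LAC.LD X N) : Holds X r := by
  have e : (r + 2) / 2 = N + 1 := by omega
  have h1 := h.lift X id (fun a b h => h) (fun a b c _ _ h => h)
  refine ⟨hreg, Pool.Agent.W111.LAR.la_eq_of_cov hr hreg (by rw [e]; exact h1), ?_⟩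
  intro _ W _ _ G f hf hG
  refine Pool.Agent.W111.LAR.la_eq_of_cov hr hG ?_
  rw [e]
  exact h.lift G f hf.1 hf.2

theorem holds_of_cov {V : Type} [Finite V] [Nonempty V] {X : SimpleGraph V} {r N : ℕ}
    (hreg : ∀ v, (X.neighborSet v).ncard = r) (hN : r = 2 * N + 1)
    (h : Cov X (N + 1)) : Holds X r := by
  have e : (r + 2) / 2 = N + 1 := by omega
  refine ⟨hreg, Pool.Agent.W111.LAR.la_eq_of_cov (by omega) hreg (by rw [e]; exact h), ?_⟩
  intro hev
  exfalso
  obtain ⟨k, hk⟩ := hev
  omega

theorem cay_deg {Γ : Type} [Group Γ] (S : Set Γ) (X : SimpleGraph Γ)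
    (hX : ∀ g h, X.Adj g h ↔ g⁻¹ * h ∈ S) (g : Γ) : (X.neighborSet g).ncard = S.ncard := by
  have h1 : X.neighborSet g = (fun s => g * s) '' S := by
    ext h
    constructor
    · intro hh
      exact ⟨g⁻¹ * h, (hX g h).1 hh, mul_inv_cancel_left _ _⟩
    · rintro ⟨s, hs, rfl⟩
      refine (hX _ _).2 ?_
      rwa [inv_mul_cancel_left]
  rw [h1, Set.ncard_image_of_injective _ (mul_right_injective g)]

theorem cube_holds {V : Type} [AddCommGroup V] [Module (ZMod 2) V] [Finite V] (S : Finset V)
    (X : SimpleGraph V) (hX : ∀ u v, X.Adj u v ↔ u + v ∈ S) (hne : S.Nonempty) (K : ℕ)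
    (hKe : Even K) (h1 : K ^ 2 ≤ 2 * S.card) (h2 : 24 * S.card ≤ 2 ^ K)
    (hU : ∀ U : Submodule (ZMod 2) V, K * {s | s ∈ S ∧ s ∈ U}.ncard ≤
      S.card * finrank (ZMod 2) U) : Holds X S.card := by
  classical
  have hreg := Pool.Agent.U390.CI.cube_deg S X hX
  rcases Nat.even_or_odd S.card with hev | hodd
  · refine holds_of_ld (N := S.card / 2) hne.card_pos hreg ?_
      (Pool.Agent.U390.CI.cube_even S K hKe hne h1 h2 hU X hX hev)
    obtain ⟨k, hk⟩ := hev
    omega
  · refine holds_of_cov (N := S.card / 2) hreg ?_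
      (Pool.Agent.U390.CI.cube_odd S K hKe h1 h2 hU X hX hodd)
    obtain ⟨k, hk⟩ := hodd
    omega

/-- **The linear arboricity conjecture for cubelike graphs.**

(1) Let `X` be the Cayley graph of a finite group `Γ` whose nonempty connection set `S` is the
disjoint union of blocks; a block of even size `k` consists of the images of the `k` unit vectors
under an injective homomorphism from `(ℤ/2)^k` to `Γ` (commuting independent involutions).  If
the sum of `k / 2 ^ k` over all blocks is at most `1`, the conjecture holds for `X` and its covers.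
If `S` contains one further involution `t`, and `6 |S| ≤ 2 ^ k + 14` for all (nonempty) blocks, then
the conjecture holds for `X`.
(2) Let `V` be a finite vector space over `ℤ/2` and `X` the graph on `V` in which `u` and `v` are
adjacent if and only if `u + v` lies in the nonempty set `S`.  Suppose that for some even `K` with
`K ^ 2 ≤ 2 |S|` and `24 |S| ≤ 2 ^ K` every subspace `U` contains at most `dim (U) |S| / K` elements of
`S`.  Then the conjecture holds for `X` (and its covers, if `|S|` is even).
(3) The condition on the subspaces is satisfied if `0 ∉ S` and `S` is invariant under a group of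
linear automorphisms of `V` all of whose orbits on `S` span subspaces of dimension at least `K`.
(4) Let `n ≥ 72` and let `D` be a nonempty set of numbers between `1` and `n - 1` such that
`r = ∑_{j ∈ D} C(n, j)` is at most `2 ^ n / 96`.  Then the conjecture holds for the `r`-regular graph
on `(ℤ/2)^n` whose edges join the vectors at a Hamming distance in `D`; in particular for all
`n ≥ 6144` and `1 ≤ j ≤ n - 1` for the graph whose edges join the vectors at Hamming distance `j`. -/
theorem result :
    (∀ (Γ : Type) [Group Γ] [Finite Γ] (J : Type) [Fintype J] (s : J → ℕ)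
      (φ : ∀ j, Multiplicative (Fin (2 * s j) → ZMod 2) →* Γ) (S : Set Γ) (X : SimpleGraph Γ),
      (∀ g h, X.Adj g h ↔ g⁻¹ * h ∈ S) → (∀ j, Function.Injective (φ j)) →
      (S.Nonempty → (∀ γ, γ ∈ S ↔ ∃ j i, unit (φ j) i = γ) → S.ncard = ∑ j, 2 * s j →
        ∑ j, ((2 * s j : ℕ) : ℝ) / 2 ^ (2 * s j) ≤ 1 → Holds X S.ncard) ∧
      (∀ t : Γ, t * t = 1 → (∀ γ, γ ∈ S ↔ γ = t ∨ ∃ j i, unit (φ j) i = γ) →
        S.ncard = (∑ j, 2 * s j) + 1 → (∀ j, 0 < s j → 6 * S.ncard ≤ 2 ^ (2 * s j) + 14) →
        Holds X S.ncard)) ∧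
    (∀ (V : Type) [AddCommGroup V] [Module (ZMod 2) V] [Finite V] (S : Set V) (X : SimpleGraph V)
      (K : ℕ), (∀ u v, X.Adj u v ↔ u + v ∈ S) → S.Nonempty → Even K → K ^ 2 ≤ 2 * S.ncard →
      24 * S.ncard ≤ 2 ^ K →
      (∀ U : Submodule (ZMod 2) V, K * (S ∩ U).ncard ≤ finrank (ZMod 2) U * S.ncard) →
      Holds X S.ncard) ∧
    (∀ (V : Type) [AddCommGroup V] [Module (ZMod 2) V] [Finite V] (S : Set V) (K : ℕ)
      (G : Subgroup (V ≃ₗ[ZMod 2] V)), (0 : V) ∉ S → (∀ g ∈ G, ∀ s ∈ S, g s ∈ S) →
      (∀ s ∈ S, K ≤ finrank (ZMod 2) (Submodule.span (ZMod 2) {t | ∃ g ∈ G, g s = t})) →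
      ∀ U : Submodule (ZMod 2) V, K * (S ∩ U).ncard ≤ finrank (ZMod 2) U * S.ncard) ∧
    (∀ (n : ℕ) (D : Finset ℕ) (X : SimpleGraph (Fin n → ZMod 2)), 72 ≤ n → D.Nonempty →
      (∀ j ∈ D, 1 ≤ j ∧ j ≤ n - 1) → (∀ u v, X.Adj u v ↔ hammingDist u v ∈ D) →
      (96 * ∑ j ∈ D, n.choose j ≤ 2 ^ n ∨ (6144 ≤ n ∧ D.card = 1)) →
      Holds X (∑ j ∈ D, n.choose j)) := by
  classical
  refine ⟨?_, ?_, ?_, ?_⟩
  · intro Γ _ _ J _ s φ S X hX hφ
    have hreg := cay_deg S X hX
    refine ⟨?_, ?_⟩
    · intro hne hS hcard hload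
      have hpos : 0 < S.ncard := (Set.ncard_pos (Set.toFinite _)).2 hne
      refine holds_of_ld (N := ∑ j, s j) hpos hreg (by rw [hcard, Finset.mul_sum]) ?_
      refine Pool.Agent.U390.CI.ld_blocks s φ hφ hload X fun g h => ?_
      rw [hX, hS]
      constructor
      · rintro ⟨j, i, hi⟩
        refine ⟨j, i, ?_⟩
        show h = g * unit (φ j) i
        rw [hi, mul_inv_cancel_left]
      · rintro ⟨j, i, hi⟩
        refine ⟨j, i, ?_⟩
        have hi' : h = g * unit (φ j) i := hi
        rw [hi', inv_mul_cancel_left]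
    · intro t ht hS hcard hL
      have ht1 : t ≠ 1 := by
        rintro rfl
        refine X.loopless.irrefl 1 ((hX 1 1).2 ((hS _).2 (Or.inl ?_)))
        simp
      have hsum : ∑ j, 2 * s j = 2 * ∑ j, s j := by rw [Finset.mul_sum]
      refine holds_of_cov (N := ∑ j, s j) hreg (by rw [hcard, hsum]) ?_
      refine Pool.Agent.U390.CI.cov_odd s φ hφ (fun j hj => ?_) t ht ht1 X fun g h => ?_
      · have := hL j hj
        omega
      · rw [hX, hS]
        constructor
        · rintro (hh | ⟨j, i, hi⟩)
          · left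
            rw [← hh, mul_inv_cancel_left]
          · refine Or.inr ⟨j, i, ?_⟩
            show h = g * unit (φ j) i
            rw [hi, mul_inv_cancel_left]
        · rintro (hh | ⟨j, i, hi⟩)
          · left
            rw [hh, inv_mul_cancel_left]
          · refine Or.inr ⟨j, i, ?_⟩
            have hi' : h = g * unit (φ j) i := hi
            rw [hi', inv_mul_cancel_left]
  · intro V _ _ _ S X K hX hne hKe h1 h2 hU
    obtain ⟨S, rfl⟩ := (Set.toFinite S).exists_finset_coe
    rw [Set.ncard_coe_finset] at *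
    refine cube_holds S X hX (by exact_mod_cast hne) K hKe h1 h2 fun U => ?_
    rw [mul_comm S.card]
    exact hU U
  · intro V _ _ _ S K G h0 hG hK U
    obtain ⟨S, rfl⟩ := (Set.toFinite S).exists_finset_coe
    rw [Set.ncard_coe_finset, mul_comm (finrank (ZMod 2) U)]
    exact Pool.Agent.U390.CI.invariant_hU G K U S.card S rfl h0 hG hK
  · intro n D X hn hne hD hX hsize
    obtain ⟨j0, hj0⟩ := hne
    set S := Pool.Agent.U390.CI.wts n D with hS
    have hcard : S.card = ∑ j ∈ D, n.choose j := Pool.Agent.U390.CI.wts_card n D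
    have hn0 : n ≤ S.card := by
      rw [hcard]
      refine le_trans (Pool.Agent.U390.CI.le_choose n j0 (hD j0 hj0).1
        (by have := (hD j0 hj0).2; omega)) ?_
      exact Finset.single_le_sum (f := fun j => n.choose j) (fun _ _ => Nat.zero_le _) hj0
    have hsize' : 96 * S.card ≤ 2 ^ n := by
      rw [hcard]
      rcases hsize with h | ⟨h1, h2⟩
      · exact h
      · obtain ⟨j, rfl⟩ := Finset.card_eq_one.1 h2
        rw [Finset.sum_singleton]
        exact Pool.Agent.U390.CI.choose_small n j h1
    obtain ⟨K, hKe, hKn, hK1, hK2⟩ := Pool.Agent.U390.CI.exists_K n S.card (by omega) hsize'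
    have h0 : (0 : Fin n → ZMod 2) ∉ S := by
      intro h
      have h1 := (Finset.mem_filter.1 h).2
      rw [hammingNorm_zero] at h1
      have := (hD 0 h1).1
      omega
    rw [← hcard]
    refine cube_holds S X (fun u v => ?_) (Finset.card_pos.1 (by omega)) K hKe hK1 hK2
      fun U => ?_
    · rw [hX, hS]
      have h1 : hammingNorm (u + v) = hammingDist u v := by
        rw [hammingDist_eq_hammingNorm, Pool.Agent.U390.CI.neg_self']
      unfold Pool.Agent.U390.CI.wts
      rw [Finset.mem_filter, h1]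
      simp
    · refine Pool.Agent.U390.CI.invariant_hU (Pool.Agent.U390.CI.permG n) K U S.card S rfl h0 ?_ ?_
      · intro g hg x hx
        have h1 := (Finset.mem_filter.1 hx).2
        refine Finset.mem_filter.2 ⟨Finset.mem_univ _, ?_⟩
        rw [Pool.Agent.U390.CI.permG_norm hg]
        exact h1
      · intro x hx
        obtain ⟨A, rfl⟩ := Pool.Agent.U390.CI.exists_ind x
        have h1 := (Finset.mem_filter.1 hx).2
        rw [Pool.Agent.U390.CI.ind_norm] at h1
        have h2 := hD _ h1
        have h3 := Pool.Agent.U390.CI.orbit_rank A h2.1 (by omega)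
        omega

end Pool.Agent.Results.MP_0a041d_co.CubelikeGraphs
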