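import Pool.Agent.U503.EA.Main2
import Pool.Agent.U928.EA.PP
import Pool.Agent.U503.EA.PT
import Pool.Agent.U99.EA.BE
import Pool.Agent.U390.EA.ASM
import Pool.Agent.U452.EA.SEL
import Pool.Agent.U438.EA.REST
import Pool.Agent.U678.EA.NUM
import Pool.Agent.U94.EA.EQ
import Pool.Agent.Y647.LAC.Even

set_option autoImplicit false

/-!
# Linear arboricity of all Cayley graphs of elementary abelian `p`-groups, `p ≥ 5`

`H931R3.LA.la G` is the linear arboricity (the same expression as in the frozen statement S07085).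

Parts of the proof: `U928/EA/PP.lean` by helper928, `U99/EA/BE.lean`
by helper99, `U390/EA/ASM.lean` by helper390, `U452/EA/SEL.lean` by helper452, `U438/EA/REST.lean` by
helper438, `U678/EA/NUM.lean` by helper678, `U94/EA/EQ.lean` by helper94.
-/

namespace Pool.Agent.Results.MP_0a041d_co.ElementaryAbelianFive

open SimpleGraph H931R3.LA Pool.Agent.W111.LAR Pool.Agent.TH486.LAC Pool.Agent.U503.VS
  Pool.Agent.U503.EA

/-- **The linear arboricity conjecture for all Cayley graphs of elementary abelian `p`-groups,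
`p ≥ 5`, and for all finite covers of these graphs.** Let `p ≥ 5` be a prime, `A` a finite abelian
group with `p a = 0` for all `a`, and `X` the Cayley graph of `A` with a nonempty connection set
`S`. Then the linear arboricity of `X` is `⌈(|S| + 1) / 2⌉`, and every finite nonempty graph `G`
with a locally injective homomorphism to `X` has linear arboricity at most `⌈(|S| + 1) / 2⌉`, with
equality if `G` is `|S|`-regular (so for all finite covers of `X`). -/
theorem result :
    ∀ p : ℕ, p.Prime → 5 ≤ p →
    ∀ (A : Type) [AddCommGroup A] [Finite A] (S : Finset A) (X : SimpleGraph A),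
      (∀ a : A, p • a = 0) → (∀ v w, X.Adj v w ↔ w - v ∈ S) → S.Nonempty →
      la X = (S.card + 2) / 2 ∧
      ∀ (V : Type) [Finite V] [Nonempty V] (G : SimpleGraph V) (f : V → A),
        (∀ a b, G.Adj a b → X.Adj (f a) (f b)) →
        (∀ a b c, G.Adj a b → G.Adj a c → f b = f c → b = c) →
        la G ≤ (S.card + 2) / 2 ∧
          ((∀ a, (G.neighborSet a).ncard = S.card) → la G = (S.card + 2) / 2) := by
  intro p hp hp5 A _ _ S X hpA hX hS
  have : Fact p.Prime := ⟨hp⟩
  let _ : Module (ZMod p) A := AddCommGroup.zmodModule hpA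
  have hLD : LD X (S.card / 2) :=
    ld_every (Pool.Agent.U390.EA.t_ASM Pool.Agent.U928.EA.PP.t_PP Pool.Agent.U503.EA.t_PT
      Pool.Agent.U99.EA.t_BE) Pool.Agent.U452.EA.t_SEL Pool.Agent.U438.EA.t_REST
      Pool.Agent.U678.EA.t_NUM Pool.Agent.U94.EA.EQ.t_EQ hp5 S X hX hS
  have h2 : (S.card + 2) / 2 = S.card / 2 + 1 := by omega
  have hmain : ∀ (V : Type) [Finite V] [Nonempty V] (G : SimpleGraph V) (f : V → A),
        (∀ a b, G.Adj a b → X.Adj (f a) (f b)) →
        (∀ a b c, G.Adj a b → G.Adj a c → f b = f c → b = c) →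
        la G ≤ (S.card + 2) / 2 ∧
          ((∀ a, (G.neighborSet a).ncard = S.card) → la G = (S.card + 2) / 2) := by
    intro V _ _ G f hom inj
    have h1 := hLD.lift G f hom inj
    rw [← h2] at h1
    exact ⟨la_le h1, fun hreg => la_eq_of_cov hS.card_pos hreg h1⟩
  exact ⟨(hmain A X id (fun a b h => h) (fun a b c _ _ h => h)).2
    (Pool.Agent.Y647.LAC.cay_deg_add' S X hX), hmain⟩

end Pool.Agent.Results.MP_0a041d_co.ElementaryAbelianFive
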