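import Pool.Agent.U348.LG.Main

/-!
# The linear arboricity conjecture for line graphs of biregular bipartite graphs

`H931R3.LA.la G` is the linear arboricity (the same expression as in the frozen statement S07085)
and `H.lineGraph` is the line graph of `H` (Mathlib). The line graph of the incidence graph of a
design is its flag graph: two flags are adjacent if they have the same point or the same block.

Proof: the edges of the line graph are divided into two disjoint unions of complete graphs. More
generally, a graph whose square has a proper colouring with `a` colours has a locally injective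
homomorphism to the complete graph with `a` vertices, and the linear forests of the latter can be
lifted.
-/

set_option autoImplicit false

namespace Pool.Agent.Results.MP_0a041d_co.FlagGraphs

open SimpleGraph H931R3.LA

/-- `f` is a proper colouring of the square of `G` with the colours `0, ..., a - 1`: vertices which
are adjacent or have a common neighbour have different colours. -/
structure SquareColouring {V : Type} (G : SimpleGraph V) (a : ℕ) (f : V → ℕ) : Prop where
  lt : ∀ v, f v < a
  adj : ∀ u v, G.Adj u v → f u ≠ f v
  common : ∀ u v w, G.Adj u v → G.Adj u w → v ≠ w → f v ≠ f w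

/-- (1) If the edges of `G` are divided into two graphs whose squares are `a`- and `b`-colourable,
then `la G ≤ ⌈a / 2⌉ + ⌈b / 2⌉`. If `a` and `b` are even and `G` is `r`-regular with `r = a + b - 2`,
`r > 0`, then `la G = ⌈(r + 1) / 2⌉`.

(2) If `H` is bipartite with sides `X` and `Xᶜ`, all degrees in `X` are at most `a` and all degrees
outside `X` are at most `b`, then the line graph of `H` has linear arboricity at most
`⌈a / 2⌉ + ⌈b / 2⌉`.

(3) If moreover all vertices in `X` have degree `a`, all others have degree `b`, `a` and `b` are even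
and positive, and `H` has a vertex, then the line graph of `H` is `r`-regular with `r = a + b - 2` and
has linear arboricity `⌈(r + 1) / 2⌉`. The same holds for every finite `r`-regular graph `G` with a
locally injective homomorphism to the line graph, for example for its finite coverings. -/
theorem result :
    (∀ (V : Type) [Finite V] (G G₁ G₂ : SimpleGraph V) (a b : ℕ) (f g : V → ℕ), G = G₁ ⊔ G₂ →
      SquareColouring G₁ a f → SquareColouring G₂ b g →
      la G ≤ (a + 1) / 2 + (b + 1) / 2 ∧
      ∀ r : ℕ, Nonempty V → 0 < r → Even a → Even b → r + 2 = a + b →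
        (∀ v, (G.neighborSet v).ncard = r) → la G = (r + 2) / 2) ∧
    (∀ (U : Type) [Finite U] (H : SimpleGraph U) (X : Set U) (a b : ℕ),
      (∀ u v, H.Adj u v → (u ∈ X ↔ v ∉ X)) →
      (∀ u ∈ X, (H.neighborSet u).ncard ≤ a) → (∀ u, u ∉ X → (H.neighborSet u).ncard ≤ b) →
      la H.lineGraph ≤ (a + 1) / 2 + (b + 1) / 2) ∧
    (∀ (U : Type) [Finite U] [Nonempty U] (H : SimpleGraph U) (X : Set U) (a b r : ℕ),
      (∀ u v, H.Adj u v → (u ∈ X ↔ v ∉ X)) → 0 < a → 0 < b → Even a → Even b →
      (∀ u ∈ X, (H.neighborSet u).ncard = a) → (∀ u, u ∉ X → (H.neighborSet u).ncard = b) →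
      r + 2 = a + b →
      (∀ e, (H.lineGraph.neighborSet e).ncard = r) ∧ la H.lineGraph = (r + 2) / 2 ∧
      ∀ (V : Type) [Finite V] [Nonempty V] (G : SimpleGraph V) (h : V → H.edgeSet),
        (∀ u v, G.Adj u v → H.lineGraph.Adj (h u) (h v)) →
        (∀ u v w, G.Adj u v → G.Adj u w → h v = h w → v = w) →
        (∀ v, (G.neighborSet v).ncard = r) → la G = (r + 2) / 2) := by
  refine ⟨?_, ?_, ?_⟩
  · rintro V _ G G₁ G₂ a b f g rfl hf hg
    have h1 : la (G₁ ⊔ G₂) ≤ (a + 1) / 2 + (b + 1) / 2 :=
      la_le (Pool.Agent.U348.LG.cov_two G₁ G₂ a b f g hf.lt hf.adj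
        (fun u v w huv huw h => by_contra fun hne => hf.common u v w huv huw hne h) hg.lt hg.adj
        (fun u v w huv huw h => by_contra fun hne => hg.common u v w huv huw hne h))
    refine ⟨h1, ?_⟩
    intro r _ hr ha hb hab hreg
    obtain ⟨a', rfl⟩ := ha
    obtain ⟨b', rfl⟩ := hb
    exact le_antisymm (h1.trans (by omega)) (lower hr (cov_la _) hreg)
  · intro U _ H X a b hX ha hb
    exact la_le (Pool.Agent.U348.LG.line_cov H X a b hX ha hb)
  · intro U _ _ H X a b r hX ha0 hb0 ha hb hdX hdY hr
    have h1 : la H.lineGraph ≤ (a + 1) / 2 + (b + 1) / 2 :=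
      la_le (Pool.Agent.U348.LG.line_cov H X a b hX (fun u hu => (hdX u hu).le)
        (fun u hu => (hdY u hu).le))
    have h2 : ∀ e, (H.lineGraph.neighborSet e).ncard = r := by
      rintro ⟨⟨x, y⟩, hxy⟩
      have h3 := Pool.Agent.U348.LG.line_deg H x y hxy
      refine h3.trans ?_
      have hxy' : H.Adj x y := hxy
      by_cases hx : x ∈ X
      · rw [hdX x hx, hdY y ((hX x y hxy').1 hx)]
        omega
      · have hy : y ∈ X := by
          by_contra hy
          exact hx ((hX x y hxy').2 hy)
        rw [hdX y hy, hdY x hx]
        omega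
    obtain ⟨a', rfl⟩ := ha
    obtain ⟨b', rfl⟩ := hb
    have hne : Nonempty H.edgeSet := by
      obtain ⟨u⟩ := ‹Nonempty U›
      have h3 : (H.neighborSet u).Nonempty := by
        rw [← Set.ncard_pos (Set.toFinite _)]
        by_cases hu : u ∈ X
        · rw [hdX u hu]
          exact ha0
        · rw [hdY u hu]
          exact hb0
      obtain ⟨v, hv⟩ := h3
      exact ⟨⟨s(u, v), hv⟩⟩
    have h4 : (r + 2) / 2 ≤ la H.lineGraph := lower (by omega) (cov_la _) h2
    refine ⟨h2, le_antisymm (h1.trans (by omega)) h4, ?_⟩
    intro V _ _ G h h5 h6 h7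
    have h8 := Pool.Agent.TH525.FRG.la_hom G H.lineGraph h h5 h6
    exact le_antisymm (h8.trans (h1.trans (by omega))) (lower (by omega) (cov_la _) h7)

end Pool.Agent.Results.MP_0a041d_co.FlagGraphs
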