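import Pool.Agent.U503.LBlow.Top

set_option autoImplicit false

/-!
# The linear arboricity conjecture for blow-ups by sets of about a quarter or half of the degree

`H931R3.LA.la G` is the linear arboricity (the same expression as in the frozen statement S07085).
For `f : W → V` with all fibres of size `m`, `G.comap f` is the blow-up of `G` by `m`: every vertex of
`G` is replaced by `m` pairwise non-adjacent vertices, every edge by a complete bipartite graph.
-/

namespace Pool.Agent.Results.MP_0a041d_co.HalfDegreeBlowups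

open SimpleGraph H931R3.LA

/-- **Linear arboricity of blow-ups.**  Let `G` be a finite graph of maximum degree at most `d`
(`d ≥ 1`), and let `d` be even and `m ≥ (d + 2) / 4`, or let `m` be even and `m ≥ (d + 1) / 2`.  Then
the blow-up of `G` by `m` has linear arboricity at most `d m / 2 + 1 = ⌈(d m + 1) / 2⌉`.  If `G` is
`d`-regular (and has a vertex), so that the blow-up is `d m`-regular, there is equality. -/
theorem result :
    ∀ (V W : Type) [Finite V] [Finite W] (G : SimpleGraph V) (d m : ℕ), 0 < d →
      ((Even d ∧ d + 2 ≤ 4 * m) ∨ (Even m ∧ d + 1 ≤ 2 * m)) →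
      (∀ v, (G.neighborSet v).ncard ≤ d) →
      ∀ (f : W → V), (∀ v, {x | f x = v}.ncard = m) →
        la (G.comap f) ≤ (d * m + 2) / 2 ∧
        (Nonempty V → (∀ v, (G.neighborSet v).ncard = d) →
          (∀ x, ((G.comap f).neighborSet x).ncard = d * m) ∧
          la (G.comap f) = (d * m + 2) / 2) := by
  intro V W _ _ G d m hd hm hG f hf
  have h1 : Cov (G.comap f) ((d * m + 2) / 2) := by
    refine Pool.Agent.U503.LB.cov_le G d m _ hG ?_ f hf
    intro V W _ _ H hH f hf
    rcases hm with ⟨⟨k, hk⟩, hm⟩ | ⟨⟨T, hT⟩, hm⟩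
    · have e : (d * m + 2) / 2 = k * m + 1 := by
        rw [hk, ← two_mul, mul_assoc]
        omega
      rw [e]
      exact Pool.Agent.U503.LB.cov_even H k m (by omega) (by omega)
        (fun v => by rw [hH, hk]; ring) f hf
    · have e : (d * m + 2) / 2 = d * T + 1 := by
        rw [hT, ← two_mul, mul_left_comm]
        omega
      rw [e]
      exact Pool.Agent.U503.LB.cov_any H d T hd (by omega) hH f
        (fun v => by rw [hf, hT]; ring)
  refine ⟨la_le h1, fun hV hreg => ?_⟩
  have hW : Nonempty W := by
    obtain ⟨v⟩ := hV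
    have h2 : 0 < {x | f x = v}.ncard := by rw [hf]; omega
    obtain ⟨x, _⟩ := (Set.ncard_pos (Set.toFinite _)).1 h2
    exact ⟨x⟩
  have h3 := Pool.Agent.R448.LP.reg_comap G d m hreg f hf
  exact ⟨h3, Pool.Agent.W111.LAR.la_eq_of_cov (Nat.mul_pos hd (by omega)) h3 h1⟩

end Pool.Agent.Results.MP_0a041d_co.HalfDegreeBlowups
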